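import Pool.Agent.Helper57.REC.StmtsX
import Pool.Agent.Helper8.REC.PAA

/-!
# REC, XBS: the potentially abelian part
-/

set_option autoImplicit false
set_option maxHeartbeats 800000

open scoped Classical
open NumberField Polynomial
open scoped commutatorElement

namespace REC

open Pool.Agent.Helper13.ZL (Pl q)
open MU
open Pool.Agent.Helper60.REC8 (exists_openNormal)

/-- nilpotent matrices of size `n` have `n`-th power zero -/
theorem xbs_pow {K : Type} [Field K] {n : ℕ} (A : Matrix (Fin n) (Fin n) K)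
    (h : IsNilpotent A) : A ^ n = 0 := by
  obtain ⟨k, hk⟩ := h
  have h1 : A.charpoly ∣ ((Polynomial.X : K[X]) ^ k) ^ n := by
    apply paa_dvd
    rw [map_pow, aeval_X, hk]
  rw [← pow_mul] at h1
  obtain ⟨j, -, hj⟩ := (dvd_prime_pow (prime_X (R := K)) _).1 h1
  have h2 : A.charpoly = Polynomial.X ^ j := eq_of_monic_of_associated A.charpoly_monic (monic_X_pow j) hj
  have h3 : j = n := by
    have h4 := A.charpoly_natDegree_eq_dim
    rw [h2, natDegree_X_pow, Fintype.card_fin] at h4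
    exact h4
  have h5 := A.aeval_self_charpoly
  rw [h2, map_pow, aeval_X, h3] at h5
  exact h5

/-- the eigenvalues: transitivity -/
theorem xbs_trans {K : Type} [Field K] {n n' n'' : ℕ} (A : Matrix (Fin n) (Fin n) K)
    (A' : Matrix (Fin n') (Fin n') K) (A'' : Matrix (Fin n'') (Fin n'') K)
    (h : (aeval A' A.charpoly) ^ n' = 0) (h' : (aeval A'' A'.charpoly) ^ n'' = 0) :
    (aeval A'' A.charpoly) ^ n'' = 0 := by
  apply xbs_pow
  rw [← map_pow] at h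
  obtain ⟨R, hR⟩ := paa_dvd A' _ h
  rw [← pow_mul] at hR
  refine ⟨n' * n' * n'', ?_⟩
  rw [pow_mul, ← map_pow, hR, ← map_pow, mul_pow, map_mul, map_pow, h', zero_mul]

/-- a homomorphism to or from an irreducible representation -/
theorem xbs_bad {G K : Type} [Group G] [Field K] {m m' : ℕ} (R : G →* Matrix (Fin m) (Fin m) K)
    (R' : G →* Matrix (Fin m') (Fin m') K) (hirr : IsIrr R')
    (hb : ¬ (Hmk R R' = ⊥ ∧ Hmk R' R = ⊥)) (g : G) : aeval (R' g) (R g).charpoly = 0 := by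
  rw [not_and_or] at hb
  rcases hb with hb | hb
  · obtain ⟨u, hu, h0⟩ := Submodule.exists_mem_ne_zero_of_ne_bot hb
    have ht := mxp_surj _ _ hirr u hu h0
    have h1 := paa_aeval _ _ u (hu g) (R g).charpoly
    rw [Matrix.aeval_self_charpoly, Matrix.mul_zero] at h1
    apply mxp_zero
    intro v
    obtain ⟨x, hx⟩ : v ∈ LinearMap.range u.mulVecLin := by rw [ht]; trivial
    rw [← hx, Matrix.mulVecLin_apply, Matrix.mulVec_mulVec, ← h1, Matrix.zero_mulVec]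
  · obtain ⟨u, hu, h0⟩ := Submodule.exists_mem_ne_zero_of_ne_bot hb
    have ht := mxp_inj _ _ hirr u hu h0
    have h1 := paa_aeval _ _ u (hu g) (R g).charpoly
    rw [Matrix.aeval_self_charpoly, Matrix.zero_mul] at h1
    apply mxp_zero
    intro v
    have hi := LinearMap.ker_eq_bot.1 ht
    apply hi
    rw [Matrix.mulVecLin_apply, Matrix.mulVecLin_apply, Matrix.mulVec_mulVec, h1,
      Matrix.zero_mulVec, Matrix.mulVec_zero]

/-- commutators act trivially -/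
theorem xbs_comm {G K : Type} [Group G] [Field K] {m : ℕ} (R : G →* Matrix (Fin m) (Fin m) K)
    (Y : Subgroup G) (h : ∀ g ∈ Y, ∀ g' ∈ Y, R g * R g' = R g' * R g) (x : G)
    (hx : x ∈ ⁅Y, Y⁆) : R x = 1 := by
  have h1 : ⁅Y, Y⁆ ≤ R.ker := by
    rw [Subgroup.commutator_le]
    intro g hg g' hg'
    rw [MonoidHom.mem_ker, commutatorElement_def, map_mul, map_mul, map_mul, h g hg g' hg',
      Matrix.mul_assoc, Matrix.mul_assoc, ← Matrix.mul_assoc (R g), ← map_mul R g, mul_inv_cancel,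
      map_one, Matrix.one_mul, ← map_mul, mul_inv_cancel, map_one]
  exact MonoidHom.mem_ker.1 (h1 hx)

theorem st_XBS (hXDV : ST_XDV) : ST_XBS := by
  intro F L _ _ _ _ n k m b S ρ hcont hb
  -- the open subgroup
  have hY : ∃ Y : Subgroup (Gal F), Y.Normal ∧ IsOpen (Y : Set (Gal F)) ∧
      ∀ i, (b i).Ab ρ → ∀ (l : ℕ) [Fact l.Prime] (Ω : Type) [Field Ω]
        [CharZero Ω] (ϑ : ℤ_[l] →+* Ω) (ι : 𝓞 L →+* Ω)
        (R : Gal F →* Matrix (Fin (m i)) (Fin (m i)) Ω),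
        (b i).At (ρ l) ϑ ι R → ∀ g ∈ Y, ∀ g' ∈ Y, R g * R g' = R g' * R g := by
    have h1 : ∀ i, ∃ H : Subgroup (Gal F), IsOpen (H : Set (Gal F)) ∧ ((b i).Ab ρ →
        ∀ (l : ℕ) [Fact l.Prime] (Ω : Type) [Field Ω]
        [CharZero Ω] (ϑ : ℤ_[l] →+* Ω) (ι : 𝓞 L →+* Ω)
        (R : Gal F →* Matrix (Fin (m i)) (Fin (m i)) Ω),
        (b i).At (ρ l) ϑ ι R → ∀ g ∈ H, ∀ g' ∈ H, R g * R g' = R g' * R g) := by
      intro i
      by_cases hab : (b i).Ab ρ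
      · obtain ⟨H, hH, h2⟩ := hab
        exact ⟨H, hH, fun _ => h2⟩
      · exact ⟨⊤, isOpen_univ, fun h => absurd h hab⟩
    choose H hH hHc using h1
    have hopen : IsOpen ((⨅ i, H i : Subgroup (Gal F)) : Set (Gal F)) := by
      rw [Subgroup.coe_iInf]
      exact isOpen_iInter_of_finite hH
    obtain ⟨Y, hYn, hYo, hYH⟩ := exists_openNormal F _ hopen (one_mem _)
    refine ⟨Y, hYn, hYo, fun i hab l _ Ω _ _ ϑ ι R hR g hg g' hg' => ?_⟩
    have h3 : ∀ g ∈ Y, g ∈ H i := fun g hg => (Subgroup.mem_iInf.1 (hYH hg)) i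
    exact hHc i hab l Ω ϑ ι R hR g (h3 g hg) g' (h3 g' hg')
  obtain ⟨Y, hYn, hYo, hYc⟩ := hY
  -- the part
  let B : Finset (Fin k) := Finset.univ.filter fun j => (b j).Ab ρ ∨
    ∃ i, (b i).Ab ρ ∧ ∃ γ : L →+* L, (b i).Dv (b j) γ ρ
  have hB : ∀ j, j ∈ B ↔ (b j).Ab ρ ∨ ∃ i, (b i).Ab ρ ∧ ∃ γ : L →+* L, (b i).Dv (b j) γ ρ :=
    fun j => by simp [B]
  have hIrl : ∀ i, i ∉ B → (b i).Irl ρ := by
    intro i hi
    rcases (hb i).2.2 with h1 | h1
    · exact absurd ((hB i).2 (Or.inl h1)) hi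
    · exact h1
  have hne : ∀ i (Ω : Type) [Field Ω] [CharZero Ω], ((b i).N : Ω) ≠ 0 := by
    intro i Ω _ _
    exact_mod_cast (b i).pos.ne'
  have hcomp : ∀ (Ω : Type) [Field Ω] (ι : 𝓞 L →+* Ω) (γ γ' : L →+* L),
      ι.comp (RingOfIntegers.mapRingHom (γ.comp γ')) =
        (ι.comp (RingOfIntegers.mapRingHom γ)).comp (RingOfIntegers.mapRingHom γ') := by
    intro Ω _ ι γ γ'
    ext x
    rfl
  -- one pair
  have hpair : ∀ i i' (γ : L →+* L), ∃ c : ℕ, i ∈ B → i' ∉ B → ∀ (l : ℕ) [Fact l.Prime], c < l →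
      ∀ (Ω : Type) [Field Ω] [IsAlgClosed Ω]
        (ϑ : ℤ_[l] →+* Ω) (ι : 𝓞 L →+* Ω), (l : Ω) = 0 →
        ∀ (R : Gal F →* Matrix (Fin (m i)) (Fin (m i)) Ω)
          (R' : Gal F →* Matrix (Fin (m i')) (Fin (m i')) Ω),
        (b i).At (ρ l) ϑ (ι.comp (RingOfIntegers.mapRingHom γ)) R → (b i').At (ρ l) ϑ ι R' →
        Hmk R R' = ⊥ ∧ Hmk R' R = ⊥ := by
    intro i i' γ
    by_cases hi : i ∈ B
    swap
    · exact ⟨0, fun h => absurd h hi⟩
    by_cases hi' : i' ∈ B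
    · exact ⟨0, fun _ h => absurd hi' h⟩
    by_contra hcon
    push Not at hcon
    obtain ⟨c', hc'⟩ := hIrl i' hi'
    have hDv : (b i).Dv (b i') γ ρ := by
      refine hXDV F L n (m i) (m i') (b i) (b i') γ S ρ hcont (hb i).2.1 (hb i').2.1 ?_
      intro c
      obtain ⟨-, -, l, hl, hcl, Ω, _, _, ϑ, ι, hl0, R, R', hR, hR', hbad⟩ := hcon (max c c')
      refine ⟨l, hl, lt_of_le_of_lt (le_max_left _ _) hcl, Ω, inferInstance, ϑ, ι, R, R', hl0, hR,
        hR', fun g => ?_⟩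
      refine xbs_bad R R' (hc' l (lt_of_le_of_lt (le_max_right _ _) hcl) Ω ϑ ι R' hl0 hR') ?_ g
      rintro ⟨h1, h2⟩
      exact hbad h1 h2
    apply hi'
    rw [hB]
    right
    rcases (hB i).1 hi with hab | ⟨i₀, hab, γ₀, hDv₀⟩
    · exact ⟨i, hab, γ, hDv⟩
    · refine ⟨i₀, hab, γ.comp γ₀, ?_⟩
      intro l _ Ω _ _ ϑ ι R R' hR hR' g
      rw [hcomp] at hR
      obtain ⟨R₁, hR₁⟩ := (hb i).1 l Ω ϑ (ι.comp (RingOfIntegers.mapRingHom γ)) (hne i Ω)
      exact xbs_trans (R g) (R₁ g) (R' g) (hDv₀ l Ω ϑ _ R R₁ hR hR₁ g) (hDv l Ω ϑ ι R₁ R' hR₁ hR' g)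
  choose c hc using hpair
  refine ⟨B, Y, hYn, hYo, ?_, hIrl, ∑ i, ∑ i', ∑ γ : L →+* L, c i i' γ, ?_⟩
  · intro j hj l _ Ω _ _ ϑ ι R hR x hx
    rcases (hB j).1 hj with hab | ⟨i, hab, γ, hDv⟩
    · rw [xbs_comm R Y (hYc j hab l Ω ϑ ι R hR) x hx, sub_self]
      exact IsNilpotent.zero
    · obtain ⟨R₁, hR₁⟩ := (hb i).1 l Ω ϑ (ι.comp (RingOfIntegers.mapRingHom γ)) (hne i Ω)
      have h1 := hDv l Ω ϑ ι R₁ R hR₁ hR x
      rw [xbs_comm R₁ Y (hYc i hab l Ω ϑ _ R₁ hR₁) x hx, Matrix.charpoly_one, map_pow, map_sub,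
        aeval_X, map_one, ← pow_mul] at h1
      exact ⟨_, h1⟩
  · intro l _ hl Ω _ _ ϑ ι γ hl0 i hi i' hi' R R' hR hR'
    have h1 : c i i' γ ≤ ∑ i, ∑ i', ∑ γ : L →+* L, c i i' γ := by
      calc c i i' γ ≤ ∑ γ : L →+* L, c i i' γ :=
            Finset.single_le_sum (f := fun γ => c i i' γ) (fun _ _ => Nat.zero_le _)
              (Finset.mem_univ γ)
        _ ≤ ∑ i', ∑ γ : L →+* L, c i i' γ :=
            Finset.single_le_sum (f := fun i' => ∑ γ : L →+* L, c i i' γ)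
              (fun _ _ => Nat.zero_le _) (Finset.mem_univ i')
        _ ≤ _ := Finset.single_le_sum (f := fun i => ∑ i', ∑ γ : L →+* L, c i i' γ)
              (fun _ _ => Nat.zero_le _) (Finset.mem_univ i)
    exact hc i i' γ hi hi' l (lt_of_le_of_lt h1 hl) Ω ϑ ι hl0 R R' hR hR'

end REC
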