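import Pool.Agent.Helper57.REC.StmtsX
import Pool.Agent.Helper28.REC.SLD
import Pool.Agent.Helper18.REC.RelCore

/-!
# REC, XRA: the potentially abelian part is rational
-/

set_option autoImplicit false
set_option maxHeartbeats 800000

open scoped Classical
open NumberField Polynomial

namespace REC

open Pool.Agent.Helper13.ZL (Pl q)
open MU

/-- the inclusions are equivariant -/
theorem xra_rho {n k : ℕ} {L : Type} [Field L] [NumberField L] {m : Fin k → ℕ}
    (b : ∀ i, Blo n (m i) L) (hb : IsDcp b) {G : Type} [Group G] {l : ℕ} [Fact l.Prime]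
    {Ω : Type} [Field Ω] (r : G →* Matrix.GeneralLinearGroup (Fin n) ℤ_[l]) (ϑ : ℤ_[l] →+* Ω)
    (ι : 𝓞 L →+* Ω) (R : ∀ i, G →* Matrix (Fin (m i)) (Fin (m i)) Ω)
    (hR : ∀ i, (b i).At r ϑ ι (R i)) (i : Fin k) (g : G) :
    (r g : Matrix (Fin n) (Fin n) ℤ_[l]).map ϑ * (b i).Q.map ι = (b i).Q.map ι * R i g := by
  obtain ⟨hort, N, -, hNi, hsum⟩ := hb
  have hN0 : (N : Ω) ≠ 0 := by
    have h1 := (hR i).1
    rwa [hNi i] at h1
  have hs : ∑ j, (b j).Q.map ι * (b j).P.map ι = (N : Ω) • (1 : Matrix (Fin n) (Fin n) Ω) := by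
    have h1 := congrArg (fun M : Matrix (Fin n) (Fin n) (𝓞 L) => ι.mapMatrix M) hsum
    simp only [map_sum] at h1
    have h2 : ι.mapMatrix ((N : 𝓞 L) • (1 : Matrix (Fin n) (Fin n) (𝓞 L))) =
        (N : Ω) • (1 : Matrix (Fin n) (Fin n) Ω) := by
      rw [Nat.cast_smul_eq_nsmul, map_nsmul, map_one, Nat.cast_smul_eq_nsmul]
    rw [h2] at h1
    rw [← h1]
    refine Finset.sum_congr rfl fun j _ => ?_
    rw [← Matrix.map_mul]
    rfl
  have hz : ∀ j, j ≠ i → (b j).P.map ι * (b i).Q.map ι = 0 := by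
    intro j hj
    rw [← Matrix.map_mul, hort j i hj, Matrix.map_zero _ (map_zero ι)]
  have hii : (b i).P.map ι * (b i).Q.map ι = (N : Ω) • (1 : Matrix (Fin (m i)) (Fin (m i)) Ω) := by
    rw [← Matrix.map_mul, (b i).PQ, hNi i]
    change ι.mapMatrix _ = _
    rw [Nat.cast_smul_eq_nsmul, map_nsmul, map_one, Nat.cast_smul_eq_nsmul]
  have h3 : (N : Ω) • ((r g : Matrix (Fin n) (Fin n) ℤ_[l]).map ϑ * (b i).Q.map ι) =
      (N : Ω) • ((b i).Q.map ι * R i g) := by
    calc (N : Ω) • ((r g : Matrix (Fin n) (Fin n) ℤ_[l]).map ϑ * (b i).Q.map ι)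
        = (∑ j, (b j).Q.map ι * (b j).P.map ι) *
          ((r g : Matrix (Fin n) (Fin n) ℤ_[l]).map ϑ * (b i).Q.map ι) := by
          rw [hs, Matrix.smul_mul, Matrix.one_mul]
      _ = ∑ j, (b j).Q.map ι * (R j g * ((b j).P.map ι * (b i).Q.map ι)) := by
          rw [Matrix.sum_mul]
          refine Finset.sum_congr rfl fun j _ => ?_
          rw [Matrix.mul_assoc, ← Matrix.mul_assoc ((b j).P.map ι), (hR j).2 g, Matrix.mul_assoc]
      _ = (b i).Q.map ι * (R i g * ((b i).P.map ι * (b i).Q.map ι)) := by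
          refine Finset.sum_eq_single i (fun j _ hj => ?_) (fun h => absurd (Finset.mem_univ i) h)
          rw [hz j hj, Matrix.mul_zero, Matrix.mul_zero]
      _ = (N : Ω) • ((b i).Q.map ι * R i g) := by
          rw [hii, Matrix.mul_smul, Matrix.mul_smul, Matrix.mul_one]
  exact smul_right_injective _ hN0 h3

/-- a homomorphism between summands which has to vanish -/
theorem xra_zero {n k : ℕ} {L : Type} [Field L] [NumberField L] {m : Fin k → ℕ}
    (b : ∀ i, Blo n (m i) L) (hb : IsDcp b) {G : Type} [Group G] {l : ℕ} [Fact l.Prime]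
    {Ω : Type} [Field Ω] (r : G →* Matrix.GeneralLinearGroup (Fin n) ℤ_[l]) (ϑ : ℤ_[l] →+* Ω)
    (ι ι' : 𝓞 L →+* Ω) (R R' : ∀ i, G →* Matrix (Fin (m i)) (Fin (m i)) Ω)
    (hR : ∀ i, (b i).At r ϑ ι (R i)) (hR' : ∀ i, (b i).At r ϑ ι' (R' i)) (i i' : Fin k)
    (h0 : Hmk (R i) (R' i') = ⊥) : (b i').P.map ι' * (b i).Q.map ι = 0 := by
  have h1 : (b i').P.map ι' * (b i).Q.map ι ∈ Hmk (R i) (R' i') := by
    intro g
    rw [Matrix.mul_assoc, ← xra_rho b hb r ϑ ι R hR i g, ← Matrix.mul_assoc, (hR' i').2 g,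
      Matrix.mul_assoc]
  rw [h0, Submodule.mem_bot] at h1
  exact h1

/-- matrices which vanish at infinitely many places are zero -/
theorem xra_int {L : Type} [Field L] [NumberField L] {a a' : ℕ} (Z : Matrix (Fin a) (Fin a') (𝓞 L))
    (c : ℕ) (h : ∀ (l : ℕ) [Fact l.Prime], c < l →
      ∀ ι : 𝓞 L →+* AlgebraicClosure (ZMod l), Z.map ι = 0) : Z = 0 := by
  ext x y : 1
  rw [Matrix.zero_apply]
  by_contra hne
  obtain ⟨c', hc'⟩ := Pool.Agent.Helper18.REC.bound_of_mem L _ hne
  obtain ⟨l, hl, hlp⟩ := Nat.exists_infinite_primes (max c c' + 1)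
  have : Fact l.Prime := ⟨hlp⟩
  have hcl : c < l := lt_of_le_of_lt (le_max_left c c') hl
  have hcl' : c' < l := lt_of_le_of_lt (le_max_right c c') hl
  obtain ⟨θ, -⟩ := sld_ext (R := ℤ) (S := 𝓞 L) (RingHom.injective_int (algebraMap ℤ (𝓞 L)))
    (Int.castRingHom (AlgebraicClosure (ZMod l)))
  refine hc' l hlp hcl' (RingHom.ker θ) (RingHom.ker_isPrime θ) ?_ ?_
  · rw [RingHom.mem_ker, map_natCast, ← map_natCast (algebraMap (ZMod l) _), ZMod.natCast_self,
      map_zero]
  · rw [RingHom.mem_ker]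
    exact congrFun (congrFun (h l hcl θ) x) y

theorem st_XRA : ST_XRA := by
  intro F L _ _ _ _ _ n k m b ρ hb hst B hc
  obtain ⟨c, hc⟩ := hc
  obtain ⟨hort, N, hN, hNi, hsum⟩ := id hb
  -- the existence of the representations
  have hex : ∀ (l : ℕ) [Fact l.Prime], N < l → ∀ ι : 𝓞 L →+* AlgebraicClosure (ZMod l),
      ∃ R : ∀ i, Gal F →* Matrix (Fin (m i)) (Fin (m i)) (AlgebraicClosure (ZMod l)),
        ∀ i, (b i).At (ρ l) ((algebraMap (ZMod l) (AlgebraicClosure (ZMod l))).comp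
          (PadicInt.toZMod (p := l))) ι (R i) := by
    intro l _ hl ι
    have h1 : ∀ i, ∃ R : Gal F →* Matrix (Fin (m i)) (Fin (m i)) (AlgebraicClosure (ZMod l)),
        (b i).At (ρ l) ((algebraMap (ZMod l) (AlgebraicClosure (ZMod l))).comp
          (PadicInt.toZMod (p := l))) ι R := by
      intro i
      refine hst i l _ _ ι ?_
      rw [hNi i, ← map_natCast (algebraMap (ZMod l) (AlgebraicClosure (ZMod l)))]
      intro h2
      have h3 := (algebraMap (ZMod l) (AlgebraicClosure (ZMod l))).injective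
        (h2.trans (map_zero _).symm)
      have h4 := (ZMod.natCast_eq_zero_iff N l).1 h3
      exact absurd (Nat.le_of_dvd hN h4) (not_le.2 hl)
    choose R hR using h1
    exact ⟨R, hR⟩
  have hl0 : ∀ (l : ℕ) [Fact l.Prime], (l : AlgebraicClosure (ZMod l)) = 0 := by
    intro l _
    rw [← map_natCast (algebraMap (ZMod l) (AlgebraicClosure (ZMod l))), ZMod.natCast_self,
      map_zero]
  -- the two vanishing statements
  have key1 : ∀ (γ : L →+* L), ∀ i ∈ B, ∀ i', i' ∉ B →
      (b i').P * (b i).Q.map (RingOfIntegers.mapRingHom γ) = 0 := by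
    intro γ i hi i' hi'
    refine xra_int _ (max c N) fun l _ hl ι => ?_
    have hcl : c < l := lt_of_le_of_lt (le_max_left c N) hl
    have hNl : N < l := lt_of_le_of_lt (le_max_right c N) hl
    obtain ⟨R, hR⟩ := hex l hNl (ι.comp (RingOfIntegers.mapRingHom γ))
    obtain ⟨R', hR'⟩ := hex l hNl ι
    have h1 := xra_zero b hb (ρ l) _ _ _ R R' hR hR' i i'
      (hc l hcl _ _ ι γ (hl0 l) i hi i' hi' (R i) (R' i') (hR i) (hR' i')).1
    rw [Matrix.map_mul, Matrix.map_map]
    exact h1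
  have key2 : ∀ (γ : L →+* L), ∀ i ∈ B, ∀ i', i' ∉ B →
      (b i).P * (b i').Q.map (RingOfIntegers.mapRingHom γ) = 0 := by
    intro γ i hi i' hi'
    -- the inverse of `γ`
    obtain ⟨γ', hγ'⟩ : ∃ γ' : L →+* L, ∀ x, γ (γ' x) = x := by
      have h1 : Function.Bijective γ.toRatAlgHom := Algebra.IsAlgebraic.algHom_bijective _
      refine ⟨(AlgEquiv.ofBijective γ.toRatAlgHom h1).symm.toAlgHom.toRingHom, fun x => ?_⟩
      exact (AlgEquiv.ofBijective γ.toRatAlgHom h1).apply_symm_apply x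
    refine xra_int _ (max c N) fun l _ hl ι => ?_
    have hcl : c < l := lt_of_le_of_lt (le_max_left c N) hl
    have hNl : N < l := lt_of_le_of_lt (le_max_right c N) hl
    obtain ⟨R, hR⟩ := hex l hNl (ι.comp (RingOfIntegers.mapRingHom γ))
    obtain ⟨R', hR'⟩ := hex l hNl ι
    have h2 : (ι.comp (RingOfIntegers.mapRingHom γ)).comp (RingOfIntegers.mapRingHom γ') = ι := by
      ext x
      rw [RingHom.comp_apply, RingHom.comp_apply]
      congr 1
      apply RingOfIntegers.ext
      rw [RingOfIntegers.mapRingHom_apply, RingOfIntegers.mapRingHom_apply]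
      exact hγ' _
    have h3 := (hc l hcl _ _ (ι.comp (RingOfIntegers.mapRingHom γ)) γ' (hl0 l) i hi i' hi' (R' i)
      (R i') (by rw [h2]; exact hR' i) (hR i')).2
    have h1 := xra_zero b hb (ρ l) _ _ _ R R' hR hR' i' i h3
    rw [Matrix.map_mul, Matrix.map_map]
    exact h1
  -- the two parts
  set E : Matrix (Fin n) (Fin n) (𝓞 L) := ∑ i ∈ B, (b i).Q * (b i).P with hE
  set E' : Matrix (Fin n) (Fin n) (𝓞 L) := ∑ i ∈ Bᶜ, (b i).Q * (b i).P with hE'
  have hEE : E + E' = (N : 𝓞 L) • (1 : Matrix (Fin n) (Fin n) (𝓞 L)) := by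
    rw [← hsum, hE, hE', Finset.sum_add_sum_compl]
  have hfix : ∀ γ : L →+* L, E.map (RingOfIntegers.mapRingHom γ) = E := by
    intro γ
    have hEg : E.map (RingOfIntegers.mapRingHom γ) =
        ∑ i ∈ B, (b i).Q.map (RingOfIntegers.mapRingHom γ) *
          (b i).P.map (RingOfIntegers.mapRingHom γ) := by
      change (RingOfIntegers.mapRingHom γ).mapMatrix E = _
      rw [hE, map_sum]
      refine Finset.sum_congr rfl fun i _ => ?_
      change ((b i).Q * (b i).P).map _ = _
      rw [Matrix.map_mul]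
    have hEg' : E'.map (RingOfIntegers.mapRingHom γ) =
        ∑ i ∈ Bᶜ, (b i).Q.map (RingOfIntegers.mapRingHom γ) *
          (b i).P.map (RingOfIntegers.mapRingHom γ) := by
      change (RingOfIntegers.mapRingHom γ).mapMatrix E' = _
      rw [hE', map_sum]
      refine Finset.sum_congr rfl fun i _ => ?_
      change ((b i).Q * (b i).P).map _ = _
      rw [Matrix.map_mul]
    have h1 : E' * E.map (RingOfIntegers.mapRingHom γ) = 0 := by
      rw [hEg, hE', Finset.sum_mul]
      refine Finset.sum_eq_zero fun i' hi' => ?_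
      rw [Finset.mul_sum]
      refine Finset.sum_eq_zero fun i hi => ?_
      rw [Matrix.mul_assoc, ← Matrix.mul_assoc (b i').P,
        key1 γ i hi i' (Finset.mem_compl.1 hi'), Matrix.zero_mul, Matrix.mul_zero]
    have h2 : E * E'.map (RingOfIntegers.mapRingHom γ) = 0 := by
      rw [hEg', hE, Finset.sum_mul]
      refine Finset.sum_eq_zero fun i hi => ?_
      rw [Finset.mul_sum]
      refine Finset.sum_eq_zero fun i' hi' => ?_
      rw [Matrix.mul_assoc, ← Matrix.mul_assoc (b i).P,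
        key2 γ i hi i' (Finset.mem_compl.1 hi'), Matrix.zero_mul, Matrix.mul_zero]
    have h3 : E.map (RingOfIntegers.mapRingHom γ) + E'.map (RingOfIntegers.mapRingHom γ) =
        (N : 𝓞 L) • (1 : Matrix (Fin n) (Fin n) (𝓞 L)) := by
      have h4 := congrArg (fun M : Matrix (Fin n) (Fin n) (𝓞 L) =>
        (RingOfIntegers.mapRingHom γ).mapMatrix M) hEE
      simp only [map_add] at h4
      have h5 : (RingOfIntegers.mapRingHom γ).mapMatrix
          ((N : 𝓞 L) • (1 : Matrix (Fin n) (Fin n) (𝓞 L))) =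
          (N : 𝓞 L) • (1 : Matrix (Fin n) (Fin n) (𝓞 L)) := by
        rw [Nat.cast_smul_eq_nsmul, map_nsmul, map_one]
      rw [h5] at h4
      exact h4
    have h6 : (N : 𝓞 L) • E.map (RingOfIntegers.mapRingHom γ) = (N : 𝓞 L) • E := by
      calc (N : 𝓞 L) • E.map (RingOfIntegers.mapRingHom γ)
          = (E + E') * E.map (RingOfIntegers.mapRingHom γ) := by
            rw [hEE, Matrix.smul_mul, Matrix.one_mul]
        _ = E * E.map (RingOfIntegers.mapRingHom γ) := by rw [Matrix.add_mul, h1, add_zero]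
        _ = E * (E.map (RingOfIntegers.mapRingHom γ) + E'.map (RingOfIntegers.mapRingHom γ)) := by
            rw [Matrix.mul_add, h2, add_zero]
        _ = (N : 𝓞 L) • E := by rw [h3, Matrix.mul_smul, Matrix.mul_one]
    ext x y : 1
    have h7 := congrFun (congrFun h6 x) y
    simp only [Matrix.smul_apply, smul_eq_mul] at h7
    exact mul_left_cancel₀ (by exact_mod_cast hN.ne') h7
  have hrat : ∀ x y, ∃ z : ℚ, algebraMap ℚ L z = algebraMap (𝓞 L) L (E x y) := by
    intro x y
    have h1 : algebraMap (𝓞 L) L (E x y) ∈ Set.range (algebraMap ℚ L) := by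
      rw [IsGalois.mem_range_algebraMap_iff_fixed]
      intro g
      have h2 := congrFun (congrFun (hfix (g : L →+* L)) x) y
      have h3 := congrArg (algebraMap (𝓞 L) L) h2
      exact h3
    exact h1
  choose z hz using hrat
  refine ⟨fun x y => z x y / N, N, hN, hNi, ?_⟩
  have hN' : (N : L) ≠ 0 := by exact_mod_cast hN.ne'
  ext x y : 1
  rw [Matrix.smul_apply, Matrix.map_apply, Matrix.map_apply, ← hE, ← hz x y, smul_eq_mul, map_div₀,
    map_natCast]
  field_simp

end REC
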